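import Pool.Agent.H78.STN.Stmts

set_option autoImplicit false

namespace Pool.STN

/-- check of `l * a ≤ b` along the recursion -/
def lc0_chk : ℕ → ℕ → ℕ → ℕ → ℕ → Bool
  | 0, _, l, a, b => decide (l * a ≤ b)
  | k + 1, n, l, a, b => decide (l * a ≤ b) && lc0_chk k (n + 1) (Nat.lcm (n + 1) l) (a * 2) (b * 7)

theorem lc0_succ (n : ℕ) : Nat.lcmUpto (n + 1) = Nat.lcm (n + 1) (Nat.lcmUpto n) := by
  unfold Nat.lcmUpto
  rw [← Finset.insert_Icc_right_eq_Icc_add_one (by omega : 1 ≤ n + 1), Finset.lcm_insert]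
  rfl

theorem lc0_spec : ∀ k n : ℕ, lc0_chk k n (Nat.lcmUpto n) (2 ^ n) (7 ^ n) = true →
    ∀ i : ℕ, i ≤ k → Nat.lcmUpto (n + i) * 2 ^ (n + i) ≤ 7 ^ (n + i) := by
  intro k
  induction k with
  | zero =>
    intro n h i hi
    have hi0 : i = 0 := by omega
    subst hi0
    unfold lc0_chk at h
    exact of_decide_eq_true h
  | succ k ih =>
    intro n h i hi
    unfold lc0_chk at h
    rw [Bool.and_eq_true] at h
    rcases Nat.eq_zero_or_pos i with h0 | h0
    · subst h0
      exact of_decide_eq_true h.1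
    · have h2 := h.2
      rw [← lc0_succ, ← pow_succ, ← pow_succ] at h2
      have := ih (n + 1) h2 (i - 1) (by omega)
      have e : n + 1 + (i - 1) = n + i := by omega
      rwa [e] at this

theorem lc0_zero : Nat.lcmUpto 0 = 1 := by
  unfold Nat.lcmUpto
  simp

set_option maxRecDepth 100000 in
theorem lc0_run : lc0_chk 1199 0 1 1 1 = true := by decide +kernel

theorem lc0_thm : LC0Stmt := by
  intro N hN
  have h := lc0_spec 1199 0 (by rw [lc0_zero, pow_zero, pow_zero]; exact lc0_run) N (by omega)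
  rwa [Nat.zero_add] at h

end Pool.STN
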